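import Pool.Agent.H29.HS.Nrm

set_option autoImplicit false

namespace Pool.Agent.H29.HS
open MeasureTheory Finset

/-! ### bounded measurable complex functions -/

def BMC {Ω : Type} [MeasurableSpace Ω] (Z : Ω → ℂ) : Prop := Measurable Z ∧ ∃ B : ℝ, ∀ x, ‖Z x‖ ≤ B

namespace BMC
variable {Ω : Type} [MeasurableSpace Ω]

lemma const (c : ℂ) : BMC (fun _ : Ω => c) := ⟨measurable_const, ‖c‖, fun _ => le_rfl⟩

lemma ofReal {X : Ω → ℝ} (hX : BM X) : BMC (fun x => (X x : ℂ)) := by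
  obtain ⟨mX, B, hB⟩ := hX
  refine ⟨Complex.measurable_ofReal.comp mX, B, fun x => ?_⟩
  rw [Complex.norm_real]; exact hB x

lemma add {X Y : Ω → ℂ} (hX : BMC X) (hY : BMC Y) : BMC (fun x => X x + Y x) := by
  obtain ⟨mX, B, hB⟩ := hX
  obtain ⟨mY, C, hC⟩ := hY
  exact ⟨mX.add mY, B + C, fun x => (norm_add_le _ _).trans (add_le_add (hB x) (hC x))⟩

lemma mul {X Y : Ω → ℂ} (hX : BMC X) (hY : BMC Y) : BMC (fun x => X x * Y x) := by
  obtain ⟨mX, B, hB⟩ := hX
  obtain ⟨mY, C, hC⟩ := hY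
  refine ⟨mX.mul mY, B * C, fun x => ?_⟩
  rw [norm_mul]
  exact mul_le_mul (hB x) (hC x) (norm_nonneg _) ((norm_nonneg _).trans (hB x))

lemma sum {α : Type} (s : Finset α) {X : α → Ω → ℂ} (hX : ∀ i ∈ s, BMC (X i)) :
    BMC (fun x => ∑ i ∈ s, X i x) := by
  classical
  induction s using Finset.induction_on with
  | empty => simpa using const (Ω := Ω) 0
  | insert a s ha ih =>
    have h1 := (hX a (Finset.mem_insert_self a s)).add
      (ih fun i hi => hX i (Finset.mem_insert_of_mem hi))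
    simpa [Finset.sum_insert ha] using h1

lemma prod {α : Type} (s : Finset α) {X : α → Ω → ℂ} (hX : ∀ i ∈ s, BMC (X i)) :
    BMC (fun x => ∏ i ∈ s, X i x) := by
  classical
  induction s using Finset.induction_on with
  | empty => simpa using const (Ω := Ω) 1
  | insert a s ha ih =>
    have h1 := (hX a (Finset.mem_insert_self a s)).mul
      (ih fun i hi => hX i (Finset.mem_insert_of_mem hi))
    simpa [Finset.prod_insert ha] using h1

lemma norm {X : Ω → ℂ} (hX : BMC X) : BM (fun x => ‖X x‖) := by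
  obtain ⟨mX, B, hB⟩ := hX
  exact ⟨mX.norm, B, fun x => by rw [abs_norm]; exact hB x⟩

end BMC

lemma BMC_WW {Ω : Type} [MeasurableSpace Ω] {u : Ω → ℝ} (hu : BM u) (N : ℕ) (s : ℂ) :
    BMC (fun ω : Fin N → Ω => WW s (fun k => u (ω k))) := by
  unfold WW
  refine BMC.prod _ fun k _ => (BMC.const 1).add ((BMC.const s).mul (BMC.ofReal ?_))
  have := (hu.comp_meas (measurable_pi_apply (X := fun _ : Fin N => Ω) k)).const_mul (Real.sqrt N)⁻¹
  simpa [div_eq_inv_mul] using this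

lemma BMC_LW {Ω : Type} [MeasurableSpace Ω] {u : Ω → ℝ} (hu : BM u) (N : ℕ) (s : ℂ) :
    BMC (fun ω : Fin N → Ω => LW s (fun k => u (ω k))) := by
  unfold LW
  have h : ∀ k : Fin N, BMC (fun ω : Fin N → Ω => s * ((u (ω k) / Real.sqrt N : ℝ) : ℂ)) := by
    intro k
    refine (BMC.const s).mul (BMC.ofReal ?_)
    have := (hu.comp_meas (measurable_pi_apply (X := fun _ : Fin N => Ω) k)).const_mul (Real.sqrt N)⁻¹
    simpa [div_eq_inv_mul] using this
  exact BMC.sum _ fun k _ => (h k).mul (BMC.prod _ fun j _ => (BMC.const 1).add (h j))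

/-! ### expansions -/

lemma WW_expand {N : ℕ} (s : ℂ) (x : Fin N → ℝ) :
    WW s x = ∑ K : Finset (Fin N), (s / (Real.sqrt N : ℝ)) ^ K.card * ((∏ k ∈ K, x k : ℝ) : ℂ) := by
  unfold WW
  rw [Finset.prod_one_add, Finset.powerset_univ]
  refine Finset.sum_congr rfl fun K _ => ?_
  rw [← Finset.prod_const, Complex.ofReal_prod, ← Finset.prod_mul_distrib]
  refine Finset.prod_congr rfl fun k _ => ?_
  push_cast
  ring

lemma euler_sum {α : Type} [Fintype α] [DecidableEq α] (z : α → ℂ) :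
    ∑ k, z k * ∏ j ∈ Finset.univ.erase k, (1 + z j) =
      ∑ K : Finset α, (K.card : ℂ) * ∏ k ∈ K, z k := by
  have h1 : ∀ k : α, z k * ∏ j ∈ Finset.univ.erase k, (1 + z j) =
      ∑ K : Finset α, if k ∈ K then ∏ j ∈ K, z j else 0 := by
    intro k
    rw [Finset.prod_one_add, Finset.mul_sum, ← Finset.sum_filter]
    refine Finset.sum_bij' (fun K _ => insert k K) (fun K _ => K.erase k) ?_ ?_ ?_ ?_ ?_
    · intro K _; simp
    · intro K hK
      rw [Finset.mem_powerset]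
      exact Finset.erase_subset_erase _ (Finset.subset_univ _)
    · intro K hK
      rw [Finset.mem_powerset] at hK
      exact Finset.erase_insert fun h => by simpa using hK h
    · intro K hK
      simp only [Finset.mem_filter, Finset.mem_univ, true_and] at hK
      exact Finset.insert_erase hK
    · intro K hK
      rw [Finset.mem_powerset] at hK
      rw [Finset.prod_insert fun h => by simpa using hK h]
  simp_rw [h1]
  rw [Finset.sum_comm]
  refine Finset.sum_congr rfl fun K _ => ?_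
  rw [Finset.sum_ite_mem, Finset.univ_inter, Finset.sum_const, nsmul_eq_mul]

lemma LW_expand {N : ℕ} (s : ℂ) (x : Fin N → ℝ) :
    LW s x = ∑ K : Finset (Fin N),
      (K.card : ℂ) * ((s / (Real.sqrt N : ℝ)) ^ K.card * ((∏ k ∈ K, x k : ℝ) : ℂ)) := by
  unfold LW
  rw [euler_sum (fun k => s * ((x k / Real.sqrt N : ℝ) : ℂ))]
  refine Finset.sum_congr rfl fun K _ => ?_
  congr 1
  rw [← Finset.prod_const, Complex.ofReal_prod, ← Finset.prod_mul_distrib]
  refine Finset.prod_congr rfl fun k _ => ?_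
  push_cast
  ring

/-! ### the correction -/

/-- coefficients of `√2 e^{-w²/2} Re Σ κ_j W_N(s_j)` -/
noncomputable def rcoef {J : Type} [Fintype J] (s κ : J → ℂ) (w : ℝ) (N : ℕ) :
    Finset (Fin N) → ℝ := fun K =>
  Real.sqrt 2 * Real.exp (-w ^ 2 / 2) * (∑ j, κ j * (s j / (Real.sqrt N : ℝ)) ^ K.card).re

lemma mev_rcoef {J : Type} [Fintype J] (s κ : J → ℂ) (w : ℝ) (N : ℕ) (x : Fin N → ℝ) :
    mev (rcoef s κ w N) x =
      Real.sqrt 2 * Real.exp (-w ^ 2 / 2) * (∑ j, κ j * WW (s j) x).re := by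
  unfold mev rcoef
  simp_rw [WW_expand, Finset.mul_sum]
  rw [Finset.sum_comm, Complex.re_sum, Finset.mul_sum]
  refine Finset.sum_congr rfl fun K _ => ?_
  rw [mul_assoc, ← Complex.re_mul_ofReal, Finset.sum_mul]
  congr 2
  refine Finset.sum_congr rfl fun j _ => ?_
  ring

lemma mev_num_rcoef {J : Type} [Fintype J] (s κ : J → ℂ) (w : ℝ) (N : ℕ) (x : Fin N → ℝ) :
    mev (num (rcoef s κ w N)) x =
      Real.sqrt 2 * Real.exp (-w ^ 2 / 2) * (∑ j, κ j * LW (s j) x).re := by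
  unfold mev num rcoef
  simp_rw [LW_expand, Finset.mul_sum]
  rw [Finset.sum_comm, Complex.re_sum, Finset.mul_sum]
  refine Finset.sum_congr rfl fun K _ => ?_
  have : ∑ j, κ j * ((K.card : ℂ) * ((s j / (Real.sqrt N : ℝ)) ^ K.card *
      ((∏ k ∈ K, x k : ℝ) : ℂ))) =
      (∑ j, κ j * (s j / (Real.sqrt N : ℝ)) ^ K.card) * (((K.card : ℝ) * ∏ k ∈ K, x k : ℝ) : ℂ) := by
    rw [Finset.sum_mul]
    refine Finset.sum_congr rfl fun j _ => ?_
    push_cast
    ring
  rw [this, Complex.re_mul_ofReal]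
  ring

lemma abs_mev_rcoef_le {J : Type} [Fintype J] (s κ : J → ℂ) (w : ℝ) (N : ℕ) (x : Fin N → ℝ) :
    |mev (rcoef s κ w N) x| ≤
      Real.sqrt 2 * Real.exp (-w ^ 2 / 2) * ∑ j, ‖κ j‖ * ‖WW (s j) x‖ := by
  rw [mev_rcoef, abs_mul, abs_of_nonneg (by positivity : 0 ≤ Real.sqrt 2 * Real.exp (-w ^ 2 / 2))]
  refine mul_le_mul_of_nonneg_left ?_ (by positivity)
  refine (Complex.abs_re_le_norm _).trans ((norm_sum_le _ _).trans (le_of_eq ?_))
  simp_rw [norm_mul]

lemma abs_mev_num_rcoef_le {J : Type} [Fintype J] (s κ : J → ℂ) (w : ℝ) (N : ℕ) (x : Fin N → ℝ) :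
    |mev (num (rcoef s κ w N)) x| ≤
      Real.sqrt 2 * Real.exp (-w ^ 2 / 2) * ∑ j, ‖κ j‖ * ‖LW (s j) x‖ := by
  rw [mev_num_rcoef, abs_mul,
    abs_of_nonneg (by positivity : 0 ≤ Real.sqrt 2 * Real.exp (-w ^ 2 / 2))]
  refine mul_le_mul_of_nonneg_left ?_ (by positivity)
  refine (Complex.abs_re_le_norm _).trans ((norm_sum_le _ _).trans (le_of_eq ?_))
  simp_rw [norm_mul]

/-! ### the growth function near a node -/

lemma phi_near (s s' : ℂ) (m : ℝ) (hm : 0 ≤ m) (hs : phi s = 50 * m ^ 2) (hr : ‖s‖ ≤ 30 * m)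
    (h : ‖s' - s‖ ≤ 1) : phi s' ≤ 50 * m ^ 2 + 30 * m + 1 := by
  have h1 : |(s' - s).re| ≤ 1 := (Complex.abs_re_le_norm _).trans h
  have h2 : |(s' - s).im| ≤ 1 := (Complex.abs_im_le_norm _).trans h
  have h3 : |s.re| ≤ 30 * m := (Complex.abs_re_le_norm _).trans hr
  have h4 : |s.im| ≤ 30 * m := (Complex.abs_im_le_norm _).trans hr
  have h5 : (s' - s).re ^ 2 + (s' - s).im ^ 2 ≤ 1 := by
    have := Complex.sq_norm (s' - s)
    rw [Complex.normSq_apply] at this
    have h6 : ‖s' - s‖ ^ 2 ≤ 1 := by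
      have := norm_nonneg (s' - s)
      nlinarith
    nlinarith
  have h5' : s.re ^ 2 + s.im ^ 2 ≤ 900 * m ^ 2 := by
    have := Complex.sq_norm s
    rw [Complex.normSq_apply] at this
    have h6 : ‖s‖ ^ 2 ≤ (30 * m) ^ 2 := pow_le_pow_left₀ (norm_nonneg _) hr 2
    nlinarith
  rw [Complex.sub_re] at h5
  rw [Complex.sub_im] at h5
  set a := s.re
  set b := s.im
  set x := s'.re - a with hx
  set y := s'.im - b with hy
  unfold phi at hs ⊢
  have e1 : s'.re = a + x := by rw [hx]; ring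
  have e2 : s'.im = b + y := by rw [hy]; ring
  rw [e1, e2]
  -- ((a+x)^2/9+(b+y)^2)/2 = 50m² + (a x/9 + b y) + (x²/9+y²)/2
  have h7 : a * x / 9 + b * y ≤ 30 * m := by
    have h8 : (a * x / 9 + b * y) ^ 2 ≤ (30 * m) ^ 2 := by
      have h9 : (a * x / 9 + b * y) ^ 2 ≤ ((a / 9) ^ 2 + b ^ 2) * (x ^ 2 + y ^ 2) := by
        nlinarith [sq_nonneg (a / 9 * y - b * x)]
      have h10 : (a / 9) ^ 2 + b ^ 2 ≤ 900 * m ^ 2 := by nlinarith [sq_nonneg a]
      have h11 : ((a / 9) ^ 2 + b ^ 2) * (x ^ 2 + y ^ 2) ≤ (900 * m ^ 2) * 1 :=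
        mul_le_mul h10 h5 (by positivity) (by positivity)
      nlinarith
    exact le_of_sq_le_sq' h8 (by positivity)
  nlinarith [sq_nonneg x, sq_nonneg y]
where
  le_of_sq_le_sq' {a b : ℝ} (h : a ^ 2 ≤ b ^ 2) (hb : 0 ≤ b) : a ≤ b := by
    have := abs_le_of_sq_le_sq h hb
    exact (le_abs_self a).trans (by simpa using this)

end Pool.Agent.H29.HS
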