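import Pool.Agent.H29.HS.Gadget

set_option autoImplicit false

namespace Pool.Agent.H29.HS
open MeasureTheory Finset Filter Topology

/-- the error size -/
noncomputable def del (m : ℝ) : ℝ :=
  Real.sqrt 2 / (17 * m) + Real.sqrt 2 * 240 * m * Real.exp (-(19 / 2) * m ^ 2 + 30 * m + 2)

lemma del_nonneg {m : ℝ} (hm : 0 ≤ m) : 0 ≤ del m := by
  unfold del; positivity

lemma tendsto_del : Tendsto (fun m : ℕ => del ((m : ℝ) + 1)) atTop (𝓝 0) := by
  have h1 : Tendsto (fun m : ℕ => ((m : ℝ) + 1)) atTop atTop :=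
    tendsto_atTop_add_const_right _ _ tendsto_natCast_atTop_atTop
  have h2 : Tendsto (fun x : ℝ => del x) atTop (𝓝 0) := by
    unfold del
    rw [show (0 : ℝ) = 0 + 0 by ring]
    refine Tendsto.add ?_ ?_
    · refine Tendsto.div_atTop tendsto_const_nhds ?_
      exact Tendsto.const_mul_atTop (by norm_num) tendsto_id
    · have h3 := (Real.tendsto_pow_mul_exp_neg_atTop_nhds_zero 1).const_mul
        (Real.sqrt 2 * 240 * Real.exp 30)
      rw [mul_zero] at h3
      refine squeeze_zero' ?_ ?_ h3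
      · filter_upwards [eventually_ge_atTop 0] with x hx
        positivity
      · filter_upwards [eventually_ge_atTop 0] with x hx
        have h4 : Real.exp (-(19 / 2) * x ^ 2 + 30 * x + 2) ≤ Real.exp 30 * Real.exp (-x) := by
          rw [← Real.exp_add]
          apply Real.exp_le_exp.2
          nlinarith [sq_nonneg (x - 31 / 19)]
        have h5 : 0 ≤ Real.sqrt 2 * 240 * x := by positivity
        calc Real.sqrt 2 * 240 * x * Real.exp (-(19 / 2) * x ^ 2 + 30 * x + 2)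
            ≤ Real.sqrt 2 * 240 * x * (Real.exp 30 * Real.exp (-x)) :=
              mul_le_mul_of_nonneg_left h4 h5
          _ = _ := by ring
  exact h2.comp h1

lemma num_bound (m : ℕ) :
    Real.exp (-(17 * (m : ℝ)) ^ 2 / 2) * (5 / 4 : ℝ) ^ (340 * m ^ 2) ≤
      Real.exp (-(119 / 2) * (m : ℝ) ^ 2) := by
  have h1 : (5 / 4 : ℝ) ≤ Real.exp (1 / 4) := by
    have := Real.add_one_le_exp (1 / 4 : ℝ)
    linarith
  have h2 : (5 / 4 : ℝ) ^ (340 * m ^ 2) ≤ Real.exp (85 * (m : ℝ) ^ 2) := by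
    refine (pow_le_pow_left₀ (by norm_num) h1 _).trans (le_of_eq ?_)
    rw [← Real.exp_nat_mul]
    congr 1
    push_cast
    ring
  calc _ ≤ Real.exp (-(17 * (m : ℝ)) ^ 2 / 2) * Real.exp (85 * (m : ℝ) ^ 2) :=
        mul_le_mul_of_nonneg_left h2 (Real.exp_nonneg _)
    _ = _ := by
        rw [← Real.exp_add]
        congr 1
        ring

lemma mev_sub {ι : Type} [Fintype ι] (a b : Finset ι → ℝ) (x : ι → ℝ) :
    mev (fun K => a K - b K) x = mev a x - mev b x := by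
  unfold mev
  rw [← Finset.sum_sub_distrib]
  exact Finset.sum_congr rfl fun K _ => by ring

lemma num_sub {ι : Type} (a b : Finset ι → ℝ) :
    num (fun K => a K - b K) = fun K => num a K - num b K := by
  funext K; unfold num; ring

/-- the gadget estimates -/
lemma gadget (hC1 : C1Stmt) (hC2 : C2Stmt) (hE : EStmt) {Ω : Type} [MeasurableSpace Ω]
    {μ : Measure Ω} {u : Ω → ℝ} (hu : IsAlph μ u) (m : ℕ) (hm : 1 ≤ m)
    {J : Type} [Fintype J] (s κ : J → ℂ) (hK : ∑ j, ‖κ j‖ ≤ 8 * (5 / 4 : ℝ) ^ (340 * m ^ 2))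
    (hphi : ∀ j, phi (s j) = 50 * (m : ℝ) ^ 2) (hr : ∀ j, ‖s j‖ ≤ 30 * m) :
    ∃ N₀ : ℕ, ∀ N : ℕ, N₀ ≤ N →
      nrm (Measure.pi fun _ : Fin N => μ) (fun ω =>
        mev (fun K => fcoef (17 * m) N K - rcoef s κ (17 * m) N K) (fun k => u (ω k)) -
          mev (fcoef (17 * m) N) (fun k => u (ω k))) ≤ del m ∧
      nrm (Measure.pi fun _ : Fin N => μ) (fun ω => ((17 * (m : ℝ)) ^ 2)⁻¹ *
        mev (num (fun K => fcoef (17 * m) N K - rcoef s κ (17 * m) N K)) (fun k => u (ω k)) -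
          mev (fcoef (17 * m) N) (fun k => u (ω k))) ≤ del m := by
  obtain ⟨N₁, h1⟩ := hC1 Ω μ u hu (30 * m)
  obtain ⟨N₂, h2⟩ := hC2 Ω μ u hu (30 * m)
  refine ⟨max 1 (max N₁ N₂), fun N hN => ?_⟩
  have hN1 : 1 ≤ N := (le_max_left _ _).trans hN
  have hN2 : N₁ ≤ N := ((le_max_left _ _).trans (le_max_right _ _)).trans hN
  have hN3 : N₂ ≤ N := ((le_max_right _ _).trans (le_max_right _ _)).trans hN
  have := hu.prob
  have hmR : (1 : ℝ) ≤ m := by exact_mod_cast hm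
  set w : ℝ := 17 * m with hw
  have hwpos : 0 < w := by rw [hw]; positivity
  have hub : BM u := hu.bm
  -- the constant
  set A : ℝ := Real.sqrt 2 * Real.exp (-w ^ 2 / 2) with hA
  have hA0 : 0 ≤ A := by rw [hA]; positivity
  have hAK : A * (8 * (5 / 4 : ℝ) ^ (340 * m ^ 2)) ≤
      8 * Real.sqrt 2 * Real.exp (-(119 / 2) * (m : ℝ) ^ 2) := by
    have := num_bound m
    rw [← hw] at this
    calc A * (8 * (5 / 4 : ℝ) ^ (340 * m ^ 2)) =
        8 * Real.sqrt 2 * (Real.exp (-w ^ 2 / 2) * (5 / 4 : ℝ) ^ (340 * m ^ 2)) := by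
          rw [hA]; ring
      _ ≤ _ := mul_le_mul_of_nonneg_left this (by positivity)
  -- bounded measurable facts
  have bmF : BM (fun ω : Fin N → Ω => mev (fcoef w N) (fun k => u (ω k))) := BM.mev_pi _ hub
  have bmLF : BM (fun ω : Fin N → Ω => mev (num (fcoef w N)) (fun k => u (ω k))) :=
    BM.mev_pi _ hub
  have bmR : BM (fun ω : Fin N → Ω => mev (rcoef s κ w N) (fun k => u (ω k))) := BM.mev_pi _ hub
  have bmLR : BM (fun ω : Fin N → Ω => mev (num (rcoef s κ w N)) (fun k => u (ω k))) :=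
    BM.mev_pi _ hub
  have bmW : ∀ j, BM (fun ω : Fin N → Ω => ‖WW (s j) (fun k => u (ω k))‖) := fun j =>
    (BMC_WW hub N (s j)).norm
  have bmL : ∀ j, BM (fun ω : Fin N → Ω => ‖LW (s j) (fun k => u (ω k))‖) := fun j =>
    (BMC_LW hub N (s j)).norm
  -- bound of the correction
  have hR : nrm (Measure.pi fun _ : Fin N => μ)
      (fun ω => mev (rcoef s κ w N) (fun k => u (ω k))) ≤
      8 * Real.sqrt 2 * Real.exp (-(119 / 2) * (m : ℝ) ^ 2) *
        Real.exp (50 * (m : ℝ) ^ 2 + 1) := by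
    have e1 : nrm (Measure.pi fun _ : Fin N => μ)
        (fun ω => mev (rcoef s κ w N) (fun k => u (ω k))) ≤
        nrm (Measure.pi fun _ : Fin N => μ)
        (fun ω => A * ∑ j, ‖κ j‖ * ‖WW (s j) (fun k => u (ω k))‖) := by
      refine nrm_mono bmR ((BM.sum _ fun j _ => (bmW j).const_mul _).const_mul _) fun ω => ?_
      exact (abs_mev_rcoef_le s κ w N _).trans (le_abs_self _)
    refine e1.trans ?_
    rw [nrm_const_mul, abs_of_nonneg hA0]
    have e2 : nrm (Measure.pi fun _ : Fin N => μ)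
        (fun ω => ∑ j, ‖κ j‖ * ‖WW (s j) (fun k => u (ω k))‖) ≤
        (∑ j, ‖κ j‖) * Real.exp (50 * (m : ℝ) ^ 2 + 1) := by
      refine (nrm_sum_le _ fun j _ => (bmW j).const_mul _).trans ?_
      rw [Finset.sum_mul]
      refine Finset.sum_le_sum fun j _ => ?_
      rw [nrm_const_mul, abs_norm]
      refine mul_le_mul_of_nonneg_left ?_ (norm_nonneg _)
      have := h1 N hN2 (s j) (hr j)
      rwa [hphi j] at this
    calc A * _ ≤ A * ((∑ j, ‖κ j‖) * Real.exp (50 * (m : ℝ) ^ 2 + 1)) :=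
          mul_le_mul_of_nonneg_left e2 hA0
      _ ≤ A * ((8 * (5 / 4 : ℝ) ^ (340 * m ^ 2)) * Real.exp (50 * (m : ℝ) ^ 2 + 1)) :=
          mul_le_mul_of_nonneg_left (mul_le_mul_of_nonneg_right hK (Real.exp_nonneg _)) hA0
      _ = (A * (8 * (5 / 4 : ℝ) ^ (340 * m ^ 2))) * Real.exp (50 * (m : ℝ) ^ 2 + 1) := by ring
      _ ≤ _ := mul_le_mul_of_nonneg_right hAK (Real.exp_nonneg _)
  have hLR : nrm (Measure.pi fun _ : Fin N => μ)
      (fun ω => mev (num (rcoef s κ w N)) (fun k => u (ω k))) ≤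
      8 * Real.sqrt 2 * Real.exp (-(119 / 2) * (m : ℝ) ^ 2) *
        (30 * m * Real.exp (50 * (m : ℝ) ^ 2 + 30 * m + 1 + 1)) := by
    have e1 : nrm (Measure.pi fun _ : Fin N => μ)
        (fun ω => mev (num (rcoef s κ w N)) (fun k => u (ω k))) ≤
        nrm (Measure.pi fun _ : Fin N => μ)
        (fun ω => A * ∑ j, ‖κ j‖ * ‖LW (s j) (fun k => u (ω k))‖) := by
      refine nrm_mono bmLR ((BM.sum _ fun j _ => (bmL j).const_mul _).const_mul _) fun ω => ?_
      exact (abs_mev_num_rcoef_le s κ w N _).trans (le_abs_self _)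
    refine e1.trans ?_
    rw [nrm_const_mul, abs_of_nonneg hA0]
    have e2 : nrm (Measure.pi fun _ : Fin N => μ)
        (fun ω => ∑ j, ‖κ j‖ * ‖LW (s j) (fun k => u (ω k))‖) ≤
        (∑ j, ‖κ j‖) * (30 * m * Real.exp (50 * (m : ℝ) ^ 2 + 30 * m + 1 + 1)) := by
      refine (nrm_sum_le _ fun j _ => (bmL j).const_mul _).trans ?_
      rw [Finset.sum_mul]
      refine Finset.sum_le_sum fun j _ => ?_
      rw [nrm_const_mul, abs_norm]
      refine mul_le_mul_of_nonneg_left ?_ (norm_nonneg _)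
      have h3 := h2 N hN3 (s j) (hr j) 1 (50 * (m : ℝ) ^ 2 + 30 * m + 1) one_pos le_rfl
        (fun s' hs' => phi_near (s j) s' m (by positivity) (hphi j) (hr j) hs')
      refine h3.trans (mul_le_mul_of_nonneg_right ?_ (Real.exp_nonneg _))
      rw [div_one]; exact hr j
    calc A * _ ≤ A * ((∑ j, ‖κ j‖) * (30 * m * Real.exp (50 * (m : ℝ) ^ 2 + 30 * m + 1 + 1))) :=
          mul_le_mul_of_nonneg_left e2 hA0
      _ ≤ A * ((8 * (5 / 4 : ℝ) ^ (340 * m ^ 2)) *
            (30 * m * Real.exp (50 * (m : ℝ) ^ 2 + 30 * m + 1 + 1))) :=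
          mul_le_mul_of_nonneg_left (mul_le_mul_of_nonneg_right hK (by positivity)) hA0
      _ = (A * (8 * (5 / 4 : ℝ) ^ (340 * m ^ 2))) *
            (30 * m * Real.exp (50 * (m : ℝ) ^ 2 + 30 * m + 1 + 1)) := by ring
      _ ≤ _ := mul_le_mul_of_nonneg_right hAK (by positivity)
  have hexp2 : 8 * Real.sqrt 2 * Real.exp (-(119 / 2) * (m : ℝ) ^ 2) *
        (30 * m * Real.exp (50 * (m : ℝ) ^ 2 + 30 * m + 1 + 1)) =
      Real.sqrt 2 * 240 * m * Real.exp (-(19 / 2) * (m : ℝ) ^ 2 + 30 * m + 2) := by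
    have h9 : Real.exp (-(19 / 2) * (m : ℝ) ^ 2 + 30 * m + 2) =
        Real.exp (-(119 / 2) * (m : ℝ) ^ 2) * Real.exp (50 * (m : ℝ) ^ 2 + 30 * m + 1 + 1) := by
      rw [← Real.exp_add]
      congr 1
      ring
    rw [h9]
    generalize Real.exp (-(119 / 2) * (m : ℝ) ^ 2) = e1
    generalize Real.exp (50 * (m : ℝ) ^ 2 + 30 * m + 1 + 1) = e2
    ring
  have hexp1 : 8 * Real.sqrt 2 * Real.exp (-(119 / 2) * (m : ℝ) ^ 2) *
        Real.exp (50 * (m : ℝ) ^ 2 + 1) ≤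
      Real.sqrt 2 * 240 * m * Real.exp (-(19 / 2) * (m : ℝ) ^ 2 + 30 * m + 2) := by
    rw [← hexp2]
    refine mul_le_mul_of_nonneg_left ?_ (by positivity)
    calc Real.exp (50 * (m : ℝ) ^ 2 + 1) ≤ Real.exp (50 * (m : ℝ) ^ 2 + 30 * m + 1 + 1) :=
          Real.exp_le_exp.2 (by nlinarith)
      _ = 1 * Real.exp (50 * (m : ℝ) ^ 2 + 30 * m + 1 + 1) := by ring
      _ ≤ _ := mul_le_mul_of_nonneg_right (by nlinarith) (Real.exp_nonneg _)
  have hfirst : 0 ≤ Real.sqrt 2 / (17 * (m : ℝ)) := by positivity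
  constructor
  · have e1 : nrm (Measure.pi fun _ : Fin N => μ) (fun ω =>
        mev (fun K => fcoef w N K - rcoef s κ w N K) (fun k => u (ω k)) -
          mev (fcoef w N) (fun k => u (ω k))) =
        nrm (Measure.pi fun _ : Fin N => μ)
          (fun ω => mev (rcoef s κ w N) (fun k => u (ω k))) := by
      refine nrm_congr fun ω => ?_
      rw [mev_sub, sub_sub_cancel_left, abs_neg]
    rw [e1]
    unfold del
    linarith
  · have e1 : ∀ ω : Fin N → Ω, (w ^ 2)⁻¹ *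
        mev (num (fun K => fcoef w N K - rcoef s κ w N K)) (fun k => u (ω k)) -
          mev (fcoef w N) (fun k => u (ω k)) =
        (w ^ 2)⁻¹ * (mev (num (fcoef w N)) (fun k => u (ω k)) -
          w ^ 2 * mev (fcoef w N) (fun k => u (ω k))) -
        (w ^ 2)⁻¹ * mev (num (rcoef s κ w N)) (fun k => u (ω k)) := by
      intro ω
      rw [num_sub, mev_sub]
      field_simp
      ring
    simp_rw [e1]
    have bmD : BM (fun ω : Fin N → Ω => mev (num (fcoef w N)) (fun k => u (ω k)) -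
          w ^ 2 * mev (fcoef w N) (fun k => u (ω k))) := bmLF.sub (bmF.const_mul _)
    refine (nrm_sub_le (bmD.const_mul _) (bmLR.const_mul _)).trans ?_
    rw [nrm_const_mul, nrm_const_mul, abs_of_nonneg (by positivity : 0 ≤ (w ^ 2)⁻¹)]
    have e2 : nrm (Measure.pi fun _ : Fin N => μ)
        (fun ω => mev (num (fcoef w N)) (fun k => u (ω k)) -
          w ^ 2 * mev (fcoef w N) (fun k => u (ω k))) ≤ Real.sqrt 2 * w := by
      refine (nrm_le_sqrt bmD).trans ?_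
      refine (Real.sqrt_le_sqrt (hE Ω μ u hu w N hwpos hN1).2).trans (le_of_eq ?_)
      rw [Real.sqrt_mul (by norm_num), Real.sqrt_sq hwpos.le]
    have e3 : (w ^ 2)⁻¹ * nrm (Measure.pi fun _ : Fin N => μ)
        (fun ω => mev (num (fcoef w N)) (fun k => u (ω k)) -
          w ^ 2 * mev (fcoef w N) (fun k => u (ω k))) ≤ Real.sqrt 2 / w := by
      refine (mul_le_mul_of_nonneg_left e2 (by positivity)).trans (le_of_eq ?_)
      field_simp
    have e4 : (w ^ 2)⁻¹ * nrm (Measure.pi fun _ : Fin N => μ)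
        (fun ω => mev (num (rcoef s κ w N)) (fun k => u (ω k))) ≤
        Real.sqrt 2 * 240 * m * Real.exp (-(19 / 2) * (m : ℝ) ^ 2 + 30 * m + 2) := by
      rw [← hexp2]
      refine le_trans ?_ hLR
      have h5 : (w ^ 2)⁻¹ ≤ 1 := by
        apply inv_le_one_of_one_le₀
        rw [hw]; nlinarith
      calc _ ≤ 1 * nrm (Measure.pi fun _ : Fin N => μ)
            (fun ω => mev (num (rcoef s κ w N)) (fun k => u (ω k))) :=
            mul_le_mul_of_nonneg_right h5 (nrm_nonneg _)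
        _ = _ := one_mul _
    unfold del
    rw [← hw]
    linarith

/-- the inequality at a finite stage -/
lemma finite_ineq (hA1 : A1Stmt) (hA2 : A2Stmt) (hA3 : A3Stmt) (hB0 : B0Stmt)
    (hC1 : C1Stmt) (hC2 : C2Stmt) (hD : DStmt) (hE : EStmt)
    {Ω : Type} [MeasurableSpace Ω] {μ : Measure Ω} {u : Ω → ℝ} (hu : IsAlph μ u) {c : ℝ}
    (hc : 0 < c) (hyp : Hyp μ u c) {ι : Type} [Fintype ι] [DecidableEq ι] {d : ℕ}
    {a : Finset ι → ℝ} (ha : ∀ S : Finset ι, S.card < d → a S = 0) {C : ℝ}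
    (hb : ∀ (Ω : Type) [MeasurableSpace Ω] (μ : Measure Ω) [IsProbabilityMeasure μ]
    (X Y Z : Ω → ℝ) (δ : ℝ), BM X → BM Y → BM Z → nrm μ Y ≤ 2 → δ ≤ 1 →
    nrm μ (fun x => X x - Y x) ≤ δ → nrm μ (fun x => Z x - Y x) ≤ δ →
    |nrm (Measure.pi fun _ : ι => μ) (fun ω => mev a fun i => Y (ω i)) -
      nrm (Measure.pi fun _ : ι => μ) (fun ω => mev a fun i => X (ω i))| ≤ C * δ ∧
    |nrm (Measure.pi fun _ : ι => μ) (fun ω => ∑ S : Finset ι, a S * ∑ i ∈ S,
        Z (ω i) * ∏ j ∈ S.erase i, X (ω j)) -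
      nrm (Measure.pi fun _ : ι => μ) (fun ω => mev (num a) fun i => Y (ω i))| ≤ C * δ)
    (m : ℕ) (hm : 1 ≤ m) (hdel : del m ≤ 1) :
    ∃ N₀ : ℕ, ∀ N : ℕ, N₀ ≤ N →
      20 / 17 * c * d * (nrm (Measure.pi fun _ : ι => (Measure.pi fun _ : Fin N => μ))
          (fun ω => mev a fun i => mev (fcoef (17 * m) N) (fun k => u (ω i k))) - C * del m) ≤
      nrm (Measure.pi fun _ : ι => (Measure.pi fun _ : Fin N => μ))
          (fun ω => mev (num a) fun i => mev (fcoef (17 * m) N) (fun k => u (ω i k))) +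
        C * del m := by
  have := hu.prob
  obtain ⟨J, hJ, s, κ, hid, hK, hphi, hr⟩ := hD m hm
  obtain ⟨N₀, hN₀⟩ := gadget hC1 hC2 hE hu m hm s κ hK hphi hr
  refine ⟨max 1 N₀, fun N hN => ?_⟩
  have hN1 : 1 ≤ N := (le_max_left _ _).trans hN
  obtain ⟨hX, hZ⟩ := hN₀ N ((le_max_right _ _).trans hN)
  have hmR : (1 : ℝ) ≤ m := by exact_mod_cast hm
  set w : ℝ := 17 * m with hw
  have hwpos : 0 < w := by rw [hw]; positivity
  have hub : BM u := hu.bm
  set g : Finset (Fin N) → ℝ := fun K => fcoef w N K - rcoef s κ w N K with hg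
  -- the gadget has no low coefficients
  have hlow : ∀ K : Finset (Fin N), K.card < 340 * m ^ 2 → g K = 0 := by
    intro K hKc
    have h1 := hid K.card hKc
    have h2 : ∑ j, κ j * (s j / (Real.sqrt N : ℝ)) ^ K.card =
        (Complex.I * w / (Real.sqrt N : ℝ)) ^ K.card := by
      rw [div_pow, hw, show Complex.I * ((17 * (m : ℝ) : ℝ) : ℂ) = Complex.I * (17 * m) by
        push_cast; ring, ← h1, Finset.sum_div]
      refine Finset.sum_congr rfl fun j _ => ?_
      rw [div_pow, mul_div_assoc]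
    rw [hg]
    simp only [fcoef, rcoef, h2, sub_self]
  have hg0 : g ∅ = 0 := hlow ∅ (by simp; positivity)
  set P : Measure (Fin N → Ω) := Measure.pi fun _ : Fin N => μ with hP
  set X : (Fin N → Ω) → ℝ := fun ω => mev g (fun k => u (ω k)) with hXdef
  set Y : (Fin N → Ω) → ℝ := fun ω => mev (fcoef w N) (fun k => u (ω k)) with hYdef
  set Z : (Fin N → Ω) → ℝ := fun ω => (w ^ 2)⁻¹ * mev (num g) (fun k => u (ω k)) with hZdef
  have bX : BM X := BM.mev_pi _ hub
  have bY : BM Y := BM.mev_pi _ hub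
  have bZ : BM Z := (BM.mev_pi _ hub).const_mul _
  have hY2 : nrm P Y ≤ 2 := by
    refine (nrm_le_sqrt bY).trans ?_
    refine (Real.sqrt_le_sqrt (hE Ω μ u hu w N hwpos hN1).1).trans ?_
    rw [Real.sqrt_le_left (by norm_num)]
    norm_num
  obtain ⟨hb1, hb2⟩ := hb (Fin N → Ω) P X Y Z (del m) bX bY bZ hY2 hdel hX hZ
  -- the hypothesis for the composition
  have hH := hyp (ι × Fin N) (d * (340 * m ^ 2)) (comp a g)
    (fun T hT => hA2 ι (Fin N) a g d (340 * m ^ 2) ha hlow T hT)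
  have bmA : Measurable (fun ω : ι × Fin N → Ω => mev (comp a g) (fun q => u (ω q))) :=
    (BM.mev_pi _ hub).1
  have bmB : Measurable (fun ω : ι × Fin N → Ω => mev (num (comp a g)) (fun q => u (ω q))) :=
    (BM.mev_pi _ hub).1
  rw [hB0 Ω μ ι (Fin N) _ bmA, hB0 Ω μ ι (Fin N) _ bmB] at hH
  have e1 : ∀ ω : ι → Fin N → Ω, mev (comp a g) (fun q : ι × Fin N => u (ω q.1 q.2)) =
      mev a (fun i => X (ω i)) := fun ω => hA1 ι (Fin N) a g hg0 (fun q => u (ω q.1 q.2))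
  have e2 : ∀ ω : ι → Fin N → Ω, mev (num (comp a g)) (fun q : ι × Fin N => u (ω q.1 q.2)) =
      w ^ 2 * ∑ S : Finset ι, a S * ∑ i ∈ S, Z (ω i) * ∏ j ∈ S.erase i, X (ω j) := by
    intro ω
    rw [hA3 ι (Fin N) a g hg0 (fun q => u (ω q.1 q.2)), Finset.mul_sum]
    refine Finset.sum_congr rfl fun S _ => ?_
    have e3 : w ^ 2 * ∑ i ∈ S, Z (ω i) * ∏ j ∈ S.erase i, X (ω j) =
        ∑ i ∈ S, mev (num g) (fun k => u (ω i k)) *
          ∏ j ∈ S.erase i, mev g (fun k => u (ω j k)) := by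
      rw [Finset.mul_sum]
      refine Finset.sum_congr rfl fun i _ => ?_
      rw [hZdef, hXdef]
      have hw0 : w ≠ 0 := hwpos.ne'
      field_simp
    rw [mul_left_comm, e3]
  simp_rw [e1, e2] at hH
  rw [nrm_const_mul, abs_of_nonneg (by positivity : 0 ≤ w ^ 2)] at hH
  set nX := nrm (Measure.pi fun _ : ι => P) (fun ω => mev a fun i => X (ω i))
  set nY := nrm (Measure.pi fun _ : ι => P) (fun ω => mev a fun i => Y (ω i))
  set nZ := nrm (Measure.pi fun _ : ι => P) (fun ω => ∑ S : Finset ι, a S * ∑ i ∈ S,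
        Z (ω i) * ∏ j ∈ S.erase i, X (ω j))
  set nL := nrm (Measure.pi fun _ : ι => P) (fun ω => mev (num a) fun i => Y (ω i))
  have h3 : nY - C * del m ≤ nX := by
    have := (abs_le.1 hb1).2
    linarith
  have h4 : nZ ≤ nL + C * del m := by
    have := (abs_le.1 hb2).2
    linarith
  have h5 : c * ((d * (340 * m ^ 2) : ℕ) : ℝ) = w ^ 2 * (20 / 17 * c * d) := by
    rw [hw]; push_cast; ring
  rw [h5] at hH
  have h6 : w ^ 2 * (20 / 17 * c * d * nX) ≤ w ^ 2 * nZ := by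
    calc _ = w ^ 2 * (20 / 17 * c * d) * nX := by ring
      _ ≤ _ := hH
  have h7 : 20 / 17 * c * d * nX ≤ nZ := le_of_mul_le_mul_left h6 (by positivity)
  have h8 : 20 / 17 * c * d * (nY - C * del m) ≤ 20 / 17 * c * d * nX :=
    mul_le_mul_of_nonneg_left h3 (by positivity)
  exact h8.trans (h7.trans h4)

theorem hStmt (hA1 : A1Stmt) (hA2 : A2Stmt) (hA3 : A3Stmt) (hB0 : B0Stmt) (hB1 : B1Stmt)
    (hC1 : C1Stmt) (hC2 : C2Stmt) (hD : DStmt) (hE : EStmt) (hF : FStmt) (hG0 : G0Stmt)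
    (hG1 : G1Stmt) : HStmt := by
  intro Ω _ μ u hu c hc hyp ι _ _ d a ha
  have := hu.prob
  obtain ⟨C, hC, hb⟩ := hB1 ι a
  have key : ∀ m : ℕ, ∃ N : ℕ,
      (∀ j : ℕ, j ≤ m → |(∫ ω, (mev (fcoef (17 * ((m + 1 : ℕ) : ℝ)) N) (fun k => u (ω k))) ^ j
        ∂(Measure.pi fun _ : Fin N => μ)) - gmom (17 * ((m + 1 : ℕ) : ℝ)) j| ≤
          1 / ((m : ℝ) + 1)) ∧
      (del ((m + 1 : ℕ) : ℝ) ≤ 1 →
        20 / 17 * c * d * (nrm (Measure.pi fun _ : ι => (Measure.pi fun _ : Fin N => μ))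
          (fun ω => mev a fun i => mev (fcoef (17 * ((m + 1 : ℕ) : ℝ)) N)
            (fun k => u (ω i k))) - C * del ((m + 1 : ℕ) : ℝ)) ≤
        nrm (Measure.pi fun _ : ι => (Measure.pi fun _ : Fin N => μ))
          (fun ω => mev (num a) fun i => mev (fcoef (17 * ((m + 1 : ℕ) : ℝ)) N)
            (fun k => u (ω i k))) + C * del ((m + 1 : ℕ) : ℝ)) := by
    intro m
    have hev1 : ∀ᶠ N : ℕ in atTop, ∀ j ∈ Finset.range (m + 1),
        |(∫ ω, (mev (fcoef (17 * ((m + 1 : ℕ) : ℝ)) N) (fun k => u (ω k))) ^ j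
        ∂(Measure.pi fun _ : Fin N => μ)) - gmom (17 * ((m + 1 : ℕ) : ℝ)) j| ≤
          1 / ((m : ℝ) + 1) := by
      rw [Filter.eventually_all_finset]
      intro j _
      have h1 := hF Ω μ u hu (17 * ((m + 1 : ℕ) : ℝ)) j (by positivity)
      have h2 := (Metric.tendsto_atTop.1 h1) (1 / ((m : ℝ) + 1)) (by positivity)
      obtain ⟨N₀, hN₀⟩ := h2
      filter_upwards [eventually_ge_atTop N₀] with N hN
      have := hN₀ N hN
      rw [Real.dist_eq] at this
      exact this.le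
    have hev2 : ∀ᶠ N : ℕ in atTop, (del ((m + 1 : ℕ) : ℝ) ≤ 1 →
        20 / 17 * c * d * (nrm (Measure.pi fun _ : ι => (Measure.pi fun _ : Fin N => μ))
          (fun ω => mev a fun i => mev (fcoef (17 * ((m + 1 : ℕ) : ℝ)) N)
            (fun k => u (ω i k))) - C * del ((m + 1 : ℕ) : ℝ)) ≤
        nrm (Measure.pi fun _ : ι => (Measure.pi fun _ : Fin N => μ))
          (fun ω => mev (num a) fun i => mev (fcoef (17 * ((m + 1 : ℕ) : ℝ)) N)
            (fun k => u (ω i k))) + C * del ((m + 1 : ℕ) : ℝ)) := by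
      by_cases hdel : del ((m + 1 : ℕ) : ℝ) ≤ 1
      · obtain ⟨N₀, hN₀⟩ := finite_ineq hA1 hA2 hA3 hB0 hC1 hC2 hD hE hu hc hyp ha hb (m + 1)
          (by omega) hdel
        filter_upwards [eventually_ge_atTop N₀] with N hN
        exact fun _ => hN₀ N hN
      · exact Filter.Eventually.of_forall fun N h => absurd h hdel
    obtain ⟨N, h1, h2⟩ := (hev1.and hev2).exists
    exact ⟨N, fun j hj => h1 j (Finset.mem_range.2 (by omega)), h2⟩
  choose N hN1 hN2 using key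
  -- convergence of moments
  have hmom : ∀ j : ℕ, Tendsto (fun m : ℕ =>
      ∫ ω, (mev (fcoef (17 * ((m + 1 : ℕ) : ℝ)) (N m)) (fun k => u (ω k))) ^ j
        ∂(Measure.pi fun _ : Fin (N m) => μ)) atTop (𝓝 (∫ θ, arcU θ ^ j ∂arcM)) := by
    intro j
    have h1 : Tendsto (fun m : ℕ => gmom (17 * ((m + 1 : ℕ) : ℝ)) j) atTop
        (𝓝 (∫ θ, arcU θ ^ j ∂arcM)) := (hG0.2.2 j).comp (tendsto_add_atTop_nat 1)
    have h2 : Tendsto (fun m : ℕ =>
      (∫ ω, (mev (fcoef (17 * ((m + 1 : ℕ) : ℝ)) (N m)) (fun k => u (ω k))) ^ j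
        ∂(Measure.pi fun _ : Fin (N m) => μ)) - gmom (17 * ((m + 1 : ℕ) : ℝ)) j) atTop
        (𝓝 0) := by
      refine squeeze_zero_norm' ?_ (tendsto_one_div_add_atTop_nhds_zero_nat (𝕜 := ℝ))
      filter_upwards [eventually_ge_atTop j] with m hm
      rw [Real.norm_eq_abs]
      exact hN1 m j hm
    have h3 := h2.add h1
    simpa using h3
  have hG := fun b => hG1 (fun m => Fin (N m) → Ω) (fun m => Measure.pi fun _ : Fin (N m) => μ)
    (fun m ω => mev (fcoef (17 * ((m + 1 : ℕ) : ℝ)) (N m)) (fun k => u (ω k)))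
    (fun m => BM.mev_pi _ hu.bm) hmom ι b
  have hd0 : Tendsto (fun m : ℕ => del ((m + 1 : ℕ) : ℝ)) atTop (𝓝 0) := by
    have := tendsto_del
    simpa using this
  have hdC : Tendsto (fun m : ℕ => C * del ((m + 1 : ℕ) : ℝ)) atTop (𝓝 0) := by
    have := hd0.const_mul C
    simpa using this
  have hL := ((hG a).sub hdC).const_mul (20 / 17 * c * d)
  have hR := (hG (num a)).add hdC
  rw [sub_zero] at hL
  rw [add_zero] at hR
  refine le_of_tendsto_of_tendsto hL hR ?_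
  have hev : ∀ᶠ m : ℕ in atTop, del ((m + 1 : ℕ) : ℝ) ≤ 1 := by
    have := hd0.eventually (ge_mem_nhds (by norm_num : (0 : ℝ) < 1))
    simpa using this
  filter_upwards [hev] with m hm
  exact hN2 m hm

end Pool.Agent.H29.HS
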