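import Mathlib

/-!
# MP_a2e4e3_an (frozen negation S05662): definitions and module statements
The weak heat-smoothing inequality fails for `p = 10/9`.
-/

set_option autoImplicit false

namespace Pool.Agent.H29.HS
open MeasureTheory Finset

/-- multilinear polynomial with coefficients `a` evaluated at `x` -/
noncomputable def mev {ι : Type} [Fintype ι] (a : Finset ι → ℝ) (x : ι → ℝ) : ℝ :=
  ∑ S : Finset ι, a S * ∏ i ∈ S, x i

/-- number operator on coefficients -/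
def num {ι : Type} (a : Finset ι → ℝ) : Finset ι → ℝ := fun S => (S.card : ℝ) * a S

/-- coefficients of `F(G(x_1,·),…,G(x_n,·))` (correct if `g ∅ = 0`) -/
noncomputable def comp {ι κ : Type} [DecidableEq ι] [Fintype κ] [DecidableEq κ]
    (a : Finset ι → ℝ) (g : Finset κ → ℝ) : Finset (ι × κ) → ℝ := fun T =>
  a (T.image Prod.fst) *
    ∏ i ∈ T.image Prod.fst, g ((Finset.univ : Finset κ).filter fun k => (i, k) ∈ T)

/-- bounded normalised alphabet -/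
structure IsAlph {Ω : Type} [MeasurableSpace Ω] (μ : Measure Ω) (u : Ω → ℝ) : Prop where
  prob : IsProbabilityMeasure μ
  meas : Measurable u
  bdd : ∀ x, |u x| ≤ 2
  mean : ∫ x, u x ∂μ = 0
  var : ∫ x, u x ^ 2 ∂μ = 1

/-- the `L_p` norm, `p = 10/9` -/
noncomputable def nrm {Ω : Type} [MeasurableSpace Ω] (μ : Measure Ω) (X : Ω → ℝ) : ℝ :=
  (∫ x, |X x| ^ (10 / 9 : ℝ) ∂μ) ^ (9 / 10 : ℝ)

/-- bounded measurable -/
def BM {Ω : Type} [MeasurableSpace Ω] (X : Ω → ℝ) : Prop := Measurable X ∧ ∃ B : ℝ, ∀ x, |X x| ≤ B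

/-- weak heat smoothing with constant `c` for the alphabet `(μ,u)` -/
def Hyp {Ω : Type} [MeasurableSpace Ω] (μ : Measure Ω) (u : Ω → ℝ) (c : ℝ) : Prop :=
  ∀ (ι : Type) [Fintype ι] [DecidableEq ι] (d : ℕ) (a : Finset ι → ℝ),
    (∀ S : Finset ι, S.card < d → a S = 0) →
    c * d * nrm (Measure.pi fun _ : ι => μ) (fun ω => mev a (fun i => u (ω i))) ≤
      nrm (Measure.pi fun _ : ι => μ) (fun ω => mev (num a) (fun i => u (ω i)))

/-! ## Module A: algebra of substitution -/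

def A1Stmt : Prop := ∀ (ι κ : Type) [Fintype ι] [DecidableEq ι] [Fintype κ] [DecidableEq κ]
  (a : Finset ι → ℝ) (g : Finset κ → ℝ), g ∅ = 0 → ∀ x : ι × κ → ℝ,
    mev (comp a g) x = mev a (fun i => mev g (fun k => x (i, k)))

def A2Stmt : Prop := ∀ (ι κ : Type) [Fintype ι] [DecidableEq ι] [Fintype κ] [DecidableEq κ]
  (a : Finset ι → ℝ) (g : Finset κ → ℝ) (d M : ℕ),
    (∀ S : Finset ι, S.card < d → a S = 0) → (∀ K : Finset κ, K.card < M → g K = 0) →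
    ∀ T : Finset (ι × κ), T.card < d * M → comp a g T = 0

def A3Stmt : Prop := ∀ (ι κ : Type) [Fintype ι] [DecidableEq ι] [Fintype κ] [DecidableEq κ]
  (a : Finset ι → ℝ) (g : Finset κ → ℝ), g ∅ = 0 → ∀ x : ι × κ → ℝ,
    mev (num (comp a g)) x = ∑ S : Finset ι, a S * ∑ i ∈ S,
      mev (num g) (fun k => x (i, k)) * ∏ j ∈ S.erase i, mev g (fun k => x (j, k))

/-! ## Module B: independence and norms -/

/-- uncurrying of product measures -/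
def B0Stmt : Prop := ∀ (Ω : Type) [MeasurableSpace Ω] (μ : Measure Ω) [IsProbabilityMeasure μ]
  (ι κ : Type) [Fintype ι] [Fintype κ] (X : (ι × κ → Ω) → ℝ), Measurable X →
    nrm (Measure.pi fun _ : ι × κ => μ) X =
      nrm (Measure.pi fun _ : ι => (Measure.pi fun _ : κ => μ)) (fun ω => X fun q => ω q.1 q.2)

/-- comparison: `X, Z` close to `Y` in `L_p` give close compositions -/
def B1Stmt : Prop := ∀ (ι : Type) [Fintype ι] [DecidableEq ι] (a : Finset ι → ℝ), ∃ C : ℝ, 0 ≤ C ∧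
  ∀ (Ω : Type) [MeasurableSpace Ω] (μ : Measure Ω) [IsProbabilityMeasure μ] (X Y Z : Ω → ℝ)
    (δ : ℝ), BM X → BM Y → BM Z → nrm μ Y ≤ 2 → δ ≤ 1 →
    nrm μ (fun x => X x - Y x) ≤ δ → nrm μ (fun x => Z x - Y x) ≤ δ →
    |nrm (Measure.pi fun _ : ι => μ) (fun ω => mev a fun i => Y (ω i)) -
      nrm (Measure.pi fun _ : ι => μ) (fun ω => mev a fun i => X (ω i))| ≤ C * δ ∧
    |nrm (Measure.pi fun _ : ι => μ) (fun ω => ∑ S : Finset ι, a S * ∑ i ∈ S,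
        Z (ω i) * ∏ j ∈ S.erase i, X (ω j)) -
      nrm (Measure.pi fun _ : ι => μ) (fun ω => mev (num a) fun i => Y (ω i))| ≤ C * δ

/-! ## Module C: the norm of `W_N(s) = ∏ (1 + s u_k/√N)` and of its derivative -/

noncomputable def WW {N : ℕ} (s : ℂ) (x : Fin N → ℝ) : ℂ :=
  ∏ k, (1 + s * ((x k / Real.sqrt N : ℝ) : ℂ))

/-- `s W_N'(s)` -/
noncomputable def LW {N : ℕ} (s : ℂ) (x : Fin N → ℝ) : ℂ :=
  ∑ k, s * ((x k / Real.sqrt N : ℝ) : ℂ) *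
    ∏ j ∈ Finset.univ.erase k, (1 + s * ((x j / Real.sqrt N : ℝ) : ℂ))

/-- the growth function `φ(a+ib) = ((p-1)a² + b²)/2`, `p = 10/9` -/
noncomputable def phi (s : ℂ) : ℝ := (s.re ^ 2 / 9 + s.im ^ 2) / 2

def C1Stmt : Prop := ∀ (Ω : Type) [MeasurableSpace Ω] (μ : Measure Ω) (u : Ω → ℝ), IsAlph μ u →
  ∀ r : ℝ, ∃ N₀ : ℕ, ∀ N : ℕ, N₀ ≤ N → ∀ s : ℂ, ‖s‖ ≤ r →
    nrm (Measure.pi fun _ : Fin N => μ) (fun ω => ‖WW s (fun k => u (ω k))‖) ≤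
      Real.exp (phi s + 1)

def C2Stmt : Prop := ∀ (Ω : Type) [MeasurableSpace Ω] (μ : Measure Ω) (u : Ω → ℝ), IsAlph μ u →
  ∀ r : ℝ, ∃ N₀ : ℕ, ∀ N : ℕ, N₀ ≤ N → ∀ s : ℂ, ‖s‖ ≤ r → ∀ (δ Φ : ℝ), 0 < δ → δ ≤ 1 →
    (∀ s' : ℂ, ‖s' - s‖ ≤ δ → phi s' ≤ Φ) →
    nrm (Measure.pi fun _ : Fin N => μ) (fun ω => ‖LW s (fun k => u (ω k))‖) ≤
      (‖s‖ / δ) * Real.exp (Φ + 1)

/-! ## Module D: interpolation on the ellipse -/

def DStmt : Prop := ∀ m : ℕ, 1 ≤ m → ∃ (J : Type) (_ : Fintype J) (s κ : J → ℂ),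
  (∀ e : ℕ, e < 340 * m ^ 2 → ∑ j, κ j * s j ^ e = (Complex.I * (17 * m)) ^ e) ∧
  (∑ j, ‖κ j‖ ≤ 8 * (5 / 4 : ℝ) ^ (340 * m ^ 2)) ∧
  (∀ j, phi (s j) = 50 * (m : ℝ) ^ 2) ∧ (∀ j, ‖s j‖ ≤ 30 * m)

/-! ## Module E: `L²` estimates for the main part -/

/-- coefficients of `√2 Re (e^{-w²/2} W_N(iw))` -/
noncomputable def fcoef (w : ℝ) (N : ℕ) : Finset (Fin N) → ℝ := fun K =>
  Real.sqrt 2 * Real.exp (-w ^ 2 / 2) * ((Complex.I * w / (Real.sqrt N : ℝ)) ^ K.card).re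

def EStmt : Prop := ∀ (Ω : Type) [MeasurableSpace Ω] (μ : Measure Ω) (u : Ω → ℝ), IsAlph μ u →
  ∀ (w : ℝ) (N : ℕ), 0 < w → 1 ≤ N →
    (∫ ω, (mev (fcoef w N) (fun k => u (ω k))) ^ 2 ∂(Measure.pi fun _ : Fin N => μ) ≤ 2) ∧
    (∫ ω, (mev (num (fcoef w N)) (fun k => u (ω k)) -
        w ^ 2 * mev (fcoef w N) (fun k => u (ω k))) ^ 2 ∂(Measure.pi fun _ : Fin N => μ)
      ≤ 2 * w ^ 2)

/-! ## Module F: moments of the main part as `N → ∞` -/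

/-- `E (√2 cos (w g))^j` for a standard Gaussian `g` -/
noncomputable def gmom (w : ℝ) (j : ℕ) : ℝ :=
  (Real.sqrt 2) ^ j / 2 ^ j * ∑ b ∈ Finset.range (j + 1),
    (j.choose b : ℝ) * Real.exp (-w ^ 2 * ((j : ℝ) - 2 * b) ^ 2 / 2)

def FStmt : Prop := ∀ (Ω : Type) [MeasurableSpace Ω] (μ : Measure Ω) (u : Ω → ℝ), IsAlph μ u →
  ∀ (w : ℝ) (j : ℕ), 0 < w →
    Filter.Tendsto (fun N : ℕ => ∫ ω, (mev (fcoef w N) (fun k => u (ω k))) ^ j
      ∂(Measure.pi fun _ : Fin N => μ)) Filter.atTop (nhds (gmom w j))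

/-! ## Module G: the arcsine alphabet and the limit of `L_p` norms -/

noncomputable def arcU : AddCircle (1 : ℝ) → ℝ := fun θ => Real.sqrt 2 * (fourier 1 θ : ℂ).re

noncomputable def arcM : Measure (AddCircle (1 : ℝ)) := AddCircle.haarAddCircle

def G0Stmt : Prop := IsAlph arcM arcU ∧ nrm arcM arcU ≠ 0 ∧
  ∀ j : ℕ, Filter.Tendsto (fun m : ℕ => gmom (17 * m) j) Filter.atTop
    (nhds (∫ θ, arcU θ ^ j ∂arcM))

def G1Stmt : Prop := ∀ (Ω : ℕ → Type) [∀ m, MeasurableSpace (Ω m)] (μ : ∀ m, Measure (Ω m))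
  [∀ m, IsProbabilityMeasure (μ m)] (Y : ∀ m, Ω m → ℝ), (∀ m, BM (Y m)) →
  (∀ j : ℕ, Filter.Tendsto (fun m => ∫ x, Y m x ^ j ∂(μ m)) Filter.atTop
    (nhds (∫ θ, arcU θ ^ j ∂arcM))) →
  ∀ (ι : Type) [Fintype ι] [DecidableEq ι] (a : Finset ι → ℝ),
    Filter.Tendsto (fun m => nrm (Measure.pi fun _ : ι => μ m) (fun ω => mev a fun i => Y m (ω i)))
      Filter.atTop
      (nhds (nrm (Measure.pi fun _ : ι => arcM) (fun ω => mev a fun i => arcU (ω i))))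

/-! ## Module I: from the frozen (positive) statement to the Rademacher alphabet -/

noncomputable def radM : Measure Bool := (PMF.uniformOfFintype Bool).toMeasure
noncomputable def radU : Bool → ℝ := fun b => if b then -1 else 1

def IStmt : Prop := IsAlph radM radU ∧
  ((∃ c : ℝ, 0 < c ∧ ∀ d : ℕ, 1 ≤ d → ∀ n : ℕ, ∀ f : (Fin n → Bool) → ℝ,
      (∀ S : Finset (Fin n), S.card < d →
        ∑ x : Fin n → Bool, f x * ∏ i ∈ S, (if x i then (-1 : ℝ) else 1) = 0) →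
      (d : ℝ) * c * ((∑ x : Fin n → Bool, |f x| ^ (10 / 9 : ℝ)) / (2 : ℝ) ^ n) ^ (1 / (10 / 9 : ℝ)) ≤
        ((∑ x : Fin n → Bool,
            |∑ i : Fin n, (f x - f (Function.update x i (!x i))) / 2| ^ (10 / 9 : ℝ)) /
              (2 : ℝ) ^ n) ^ (1 / (10 / 9 : ℝ))) →
    ∃ c : ℝ, 0 < c ∧ Hyp radM radU c)

/-! ## Module H: the transfer (assembly) -/

def HStmt : Prop := ∀ (Ω : Type) [MeasurableSpace Ω] (μ : Measure Ω) (u : Ω → ℝ), IsAlph μ u →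
  ∀ c : ℝ, 0 < c → Hyp μ u c → Hyp arcM arcU (20 / 17 * c)

end Pool.Agent.H29.HS
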