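import Pool.Agent.H29.HS.Iface

set_option autoImplicit false

namespace Pool.Agent.H29.HS
open MeasureTheory Finset

variable {Ω : Type} [MeasurableSpace Ω] {μ : Measure Ω}

/-! ### bounded measurable functions -/

namespace BM

lemma const (c : ℝ) : BM (fun _ : Ω => c) := ⟨measurable_const, |c|, fun _ => le_rfl⟩

lemma add {X Y : Ω → ℝ} (hX : BM X) (hY : BM Y) : BM (fun x => X x + Y x) := by
  obtain ⟨mX, B, hB⟩ := hX
  obtain ⟨mY, C, hC⟩ := hY
  exact ⟨mX.add mY, B + C, fun x => (abs_add_le _ _).trans (add_le_add (hB x) (hC x))⟩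

lemma neg {X : Ω → ℝ} (hX : BM X) : BM (fun x => - X x) := by
  obtain ⟨mX, B, hB⟩ := hX
  exact ⟨mX.neg, B, fun x => by rw [abs_neg]; exact hB x⟩

lemma sub {X Y : Ω → ℝ} (hX : BM X) (hY : BM Y) : BM (fun x => X x - Y x) := by
  simpa [sub_eq_add_neg] using hX.add hY.neg

lemma mul {X Y : Ω → ℝ} (hX : BM X) (hY : BM Y) : BM (fun x => X x * Y x) := by
  obtain ⟨mX, B, hB⟩ := hX
  obtain ⟨mY, C, hC⟩ := hY
  refine ⟨mX.mul mY, B * C, fun x => ?_⟩
  rw [abs_mul]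
  exact mul_le_mul (hB x) (hC x) (abs_nonneg _) ((abs_nonneg _).trans (hB x))

lemma const_mul {X : Ω → ℝ} (hX : BM X) (c : ℝ) : BM (fun x => c * X x) := (const c).mul hX

lemma abs {X : Ω → ℝ} (hX : BM X) : BM (fun x => |X x|) := by
  obtain ⟨mX, B, hB⟩ := hX
  exact ⟨mX.abs, B, fun x => by rw [abs_abs]; exact hB x⟩

lemma sum {α : Type} (s : Finset α) {X : α → Ω → ℝ} (hX : ∀ i ∈ s, BM (X i)) :
    BM (fun x => ∑ i ∈ s, X i x) := by
  classical
  induction s using Finset.induction_on with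
  | empty => simpa using const (Ω := Ω) 0
  | insert a s ha ih =>
    have h1 := (hX a (Finset.mem_insert_self a s)).add
      (ih fun i hi => hX i (Finset.mem_insert_of_mem hi))
    simpa [Finset.sum_insert ha] using h1

lemma prod {α : Type} (s : Finset α) {X : α → Ω → ℝ} (hX : ∀ i ∈ s, BM (X i)) :
    BM (fun x => ∏ i ∈ s, X i x) := by
  classical
  induction s using Finset.induction_on with
  | empty => simpa using const (Ω := Ω) 1
  | insert a s ha ih =>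
    have h1 := (hX a (Finset.mem_insert_self a s)).mul
      (ih fun i hi => hX i (Finset.mem_insert_of_mem hi))
    simpa [Finset.prod_insert ha] using h1

lemma pow {X : Ω → ℝ} (hX : BM X) (n : ℕ) : BM (fun x => X x ^ n) := by
  induction n with
  | zero => simpa using const (Ω := Ω) 1
  | succ n ih => simpa [pow_succ] using ih.mul hX

lemma comp_meas {Ω' : Type} [MeasurableSpace Ω'] {X : Ω → ℝ} (hX : BM X) {φ : Ω' → Ω}
    (hφ : Measurable φ) : BM (fun x => X (φ x)) := by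
  obtain ⟨mX, B, hB⟩ := hX
  exact ⟨mX.comp hφ, B, fun x => hB _⟩

lemma memLp [IsFiniteMeasure μ] {X : Ω → ℝ} (hX : BM X) (q : ENNReal) : MemLp X q μ := by
  obtain ⟨mX, B, hB⟩ := hX
  exact MemLp.of_bound mX.aestronglyMeasurable B (Filter.Eventually.of_forall fun x => hB x)

lemma integrable [IsFiniteMeasure μ] {X : Ω → ℝ} (hX : BM X) : Integrable X μ :=
  memLp_one_iff_integrable.mp (hX.memLp 1)

lemma rpow {X : Ω → ℝ} (hX : BM X) : BM (fun x => |X x| ^ (10 / 9 : ℝ)) := by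
  obtain ⟨mX, B, hB⟩ := hX
  refine ⟨mX.abs.pow_const _, B ^ (10 / 9 : ℝ), fun x => ?_⟩
  rw [abs_of_nonneg (Real.rpow_nonneg (abs_nonneg _) _)]
  exact Real.rpow_le_rpow (abs_nonneg _) (hB x) (by norm_num)

end BM

/-! ### the norm -/

lemma nrm_nonneg (X : Ω → ℝ) : 0 ≤ nrm μ X :=
  Real.rpow_nonneg (integral_nonneg fun _ => Real.rpow_nonneg (abs_nonneg _) _) _

lemma nrm_congr {X Y : Ω → ℝ} (h : ∀ x, |X x| = |Y x|) : nrm μ X = nrm μ Y := by
  unfold nrm; simp_rw [h]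

lemma nrm_abs (X : Ω → ℝ) : nrm μ (fun x => |X x|) = nrm μ X := nrm_congr fun x => abs_abs _

lemma nrm_neg (X : Ω → ℝ) : nrm μ (fun x => - X x) = nrm μ X := nrm_congr fun x => abs_neg _

lemma nrm_const_mul (c : ℝ) (X : Ω → ℝ) : nrm μ (fun x => c * X x) = |c| * nrm μ X := by
  unfold nrm
  have h1 : ∀ x, |c * X x| ^ (10 / 9 : ℝ) = |c| ^ (10 / 9 : ℝ) * |X x| ^ (10 / 9 : ℝ) := fun x => by
    rw [abs_mul, Real.mul_rpow (abs_nonneg _) (abs_nonneg _)]
  simp_rw [h1]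
  rw [integral_const_mul, Real.mul_rpow (Real.rpow_nonneg (abs_nonneg _) _)
    (integral_nonneg fun _ => Real.rpow_nonneg (abs_nonneg _) _), ← Real.rpow_mul (abs_nonneg _)]
  norm_num

lemma nrm_zero : nrm μ (fun _ : Ω => (0 : ℝ)) = 0 := by
  have := nrm_const_mul (μ := μ) 0 (fun _ : Ω => (0 : ℝ))
  simpa using this

lemma nrm_mono [IsFiniteMeasure μ] {X Y : Ω → ℝ} (hX : BM X) (hY : BM Y)
    (h : ∀ x, |X x| ≤ |Y x|) : nrm μ X ≤ nrm μ Y := by
  unfold nrm
  refine Real.rpow_le_rpow (integral_nonneg fun _ => Real.rpow_nonneg (abs_nonneg _) _) ?_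
    (by norm_num)
  exact integral_mono hX.rpow.integrable hY.rpow.integrable fun x =>
    Real.rpow_le_rpow (abs_nonneg _) (h x) (by norm_num)

/-- the exponent in `ℝ≥0∞` -/
noncomputable def pE : ENNReal := ENNReal.ofReal (10 / 9)

lemma pE_toReal : pE.toReal = 10 / 9 := ENNReal.toReal_ofReal (by norm_num)
lemma pE_ne_zero : pE ≠ 0 := by
  unfold pE; simp
lemma pE_ne_top : pE ≠ ⊤ := ENNReal.ofReal_ne_top
lemma one_le_pE : 1 ≤ pE := by
  unfold pE
  rw [← ENNReal.ofReal_one]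
  exact ENNReal.ofReal_le_ofReal (by norm_num)
lemma pE_le_two : pE ≤ 2 := by
  unfold pE
  rw [show (2 : ENNReal) = ENNReal.ofReal 2 by simp]
  exact ENNReal.ofReal_le_ofReal (by norm_num)

lemma nrm_eq [IsFiniteMeasure μ] {X : Ω → ℝ} (hX : BM X) : nrm μ X = (eLpNorm X pE μ).toReal := by
  rw [MemLp.eLpNorm_eq_integral_rpow_norm pE_ne_zero pE_ne_top (hX.memLp _), pE_toReal]
  rw [ENNReal.toReal_ofReal (Real.rpow_nonneg (integral_nonneg fun _ =>
    Real.rpow_nonneg (norm_nonneg _) _) _)]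
  unfold nrm
  simp only [Real.norm_eq_abs]
  norm_num

lemma nrm_add_le [IsFiniteMeasure μ] {X Y : Ω → ℝ} (hX : BM X) (hY : BM Y) :
    nrm μ (fun x => X x + Y x) ≤ nrm μ X + nrm μ Y := by
  rw [nrm_eq hX, nrm_eq hY, nrm_eq (hX.add hY), ← ENNReal.toReal_add (hX.memLp _).2.ne
    (hY.memLp _).2.ne]
  refine ENNReal.toReal_mono (ENNReal.add_ne_top.2 ⟨(hX.memLp _).2.ne, (hY.memLp _).2.ne⟩) ?_
  exact eLpNorm_add_le (hX.memLp pE).1 (hY.memLp pE).1 one_le_pE

lemma nrm_sub_le [IsFiniteMeasure μ] {X Y : Ω → ℝ} (hX : BM X) (hY : BM Y) :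
    nrm μ (fun x => X x - Y x) ≤ nrm μ X + nrm μ Y := by
  have := nrm_add_le (μ := μ) hX hY.neg
  rw [nrm_neg] at this
  simpa [sub_eq_add_neg] using this

lemma nrm_sub_comm (X Y : Ω → ℝ) : nrm μ (fun x => X x - Y x) = nrm μ (fun x => Y x - X x) :=
  nrm_congr fun _ => abs_sub_comm _ _

lemma abs_nrm_sub_le [IsFiniteMeasure μ] {X Y : Ω → ℝ} (hX : BM X) (hY : BM Y) :
    |nrm μ X - nrm μ Y| ≤ nrm μ (fun x => X x - Y x) := by
  rw [abs_le]
  constructor
  · have := nrm_add_le (μ := μ) hX (hY.sub hX)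
    simp only [add_sub_cancel] at this
    rw [nrm_sub_comm X Y]
    linarith
  · have := nrm_add_le (μ := μ) hY (hX.sub hY)
    simp only [add_sub_cancel] at this
    linarith

lemma nrm_sum_le [IsFiniteMeasure μ] {α : Type} (s : Finset α) {X : α → Ω → ℝ}
    (hX : ∀ i ∈ s, BM (X i)) :
    nrm μ (fun x => ∑ i ∈ s, X i x) ≤ ∑ i ∈ s, nrm μ (X i) := by
  classical
  induction s using Finset.induction_on with
  | empty => simp [nrm_zero]
  | insert a s ha ih =>
    have h1 := ih fun i hi => hX i (Finset.mem_insert_of_mem hi)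
    have h2 := nrm_add_le (μ := μ) (hX a (Finset.mem_insert_self a s))
      (BM.sum s fun i hi => hX i (Finset.mem_insert_of_mem hi))
    simp only [Finset.sum_insert ha]
    linarith

/-- Lyapunov: `‖X‖_p ≤ ‖X‖_2` -/
lemma nrm_le_sqrt [IsProbabilityMeasure μ] {X : Ω → ℝ} (hX : BM X) :
    nrm μ X ≤ Real.sqrt (∫ x, X x ^ 2 ∂μ) := by
  rw [nrm_eq hX]
  have h1 : eLpNorm X pE μ ≤ eLpNorm X 2 μ :=
    eLpNorm_le_eLpNorm_of_exponent_le pE_le_two (hX.memLp 2).1
  refine (ENNReal.toReal_mono (hX.memLp 2).2.ne h1).trans (le_of_eq ?_)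
  rw [MemLp.eLpNorm_eq_integral_rpow_norm (by norm_num) (by norm_num) (hX.memLp _)]
  rw [ENNReal.toReal_ofReal (Real.rpow_nonneg (integral_nonneg fun _ =>
    Real.rpow_nonneg (norm_nonneg _) _) _)]
  rw [Real.sqrt_eq_rpow]
  simp only [ENNReal.toReal_ofNat, Real.norm_eq_abs, Real.rpow_ofNat, sq_abs]
  norm_num

/-- `∫ |X|^p = (nrm X)^p` -/
lemma nrm_rpow (X : Ω → ℝ) : nrm μ X ^ (10 / 9 : ℝ) = ∫ x, |X x| ^ (10 / 9 : ℝ) ∂μ := by
  unfold nrm
  rw [← Real.rpow_mul (integral_nonneg fun _ => Real.rpow_nonneg (abs_nonneg _) _)]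
  norm_num

/-! ### evaluations of multilinear polynomials are bounded measurable -/

lemma BM.mev {ι : Type} [Fintype ι] (a : Finset ι → ℝ) {X : ι → Ω → ℝ} (hX : ∀ i, BM (X i)) :
    BM (fun x => HS.mev a (fun i => X i x)) := by
  unfold HS.mev
  exact BM.sum _ fun S _ => (BM.prod S fun i _ => hX i).const_mul _

/-- evaluation on a product space -/
lemma BM.mev_pi {ι : Type} [Fintype ι] (a : Finset ι → ℝ) {X : Ω → ℝ} (hX : BM X) :
    BM (fun ω : ι → Ω => HS.mev a (fun i => X (ω i))) :=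
  BM.mev a fun i => hX.comp_meas (measurable_pi_apply i)

lemma IsAlph.bm {u : Ω → ℝ} (h : IsAlph μ u) : BM u := ⟨h.meas, 2, h.bdd⟩

end Pool.Agent.H29.HS
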