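import Pool.Agent.H29.HS.H
import Pool.Agent.H77.HS.ModA
import Pool.Agent.H77.HS.ModI
import Pool.Agent.H3.HS.B0
import Pool.Agent.H3.HS.B1
import Pool.Agent.H91.HS.C1
import Pool.Agent.H91.HS.C2
import Pool.Agent.H62.HS.D
import Pool.Agent.H62.HS.E
import Pool.Agent.H72.HS.F
import Pool.Agent.H94.HS.G0
import Pool.Agent.H74.HS.G1

set_option autoImplicit false

namespace Pool.Agent.H29.HS
open MeasureTheory Finset Filter Topology

theorem hStmt_proved : HStmt :=
  hStmt Pool.Agent.H77.HS.modA1 Pool.Agent.H77.HS.modA2 Pool.Agent.H77.HS.modA3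
    Pool.Agent.H3.HS.b0 Pool.Agent.H3.HS.b1 Pool.Agent.H91.HS.c1
    (Pool.Agent.H91.HS.c2 Pool.Agent.H91.HS.c1) Pool.Agent.H62.HS.dStmt Pool.Agent.H62.HS.eStmt
    Pool.Agent.H72.HS.fmain Pool.Agent.H94.HS.g0 Pool.Agent.H74.HS.g1Stmt

/-- a single Rademacher sum bounds the constant -/
lemma hyp_le_one {c : ℝ} (h : Hyp arcM arcU c) : c ≤ 1 := by
  have hA := Pool.Agent.H94.HS.g0.1
  have hP : IsProbabilityMeasure arcM := hA.prob
  have h1 := h Unit 1 (fun S => if S = {()} then 1 else 0) (by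
    intro S hS
    have : S = ∅ := Finset.card_eq_zero.1 (by omega)
    subst this
    simp)
  have e1 : ∀ x : Unit → ℝ, mev (fun S : Finset Unit => if S = {()} then (1 : ℝ) else 0) x =
      x () := by
    intro x
    unfold mev
    simp
  have e2 : ∀ x : Unit → ℝ, mev (num (fun S : Finset Unit => if S = {()} then (1 : ℝ) else 0)) x =
      x () := by
    intro x
    unfold mev num
    simp
  simp_rw [e1, e2] at h1
  have e3 : nrm (Measure.pi fun _ : Unit => arcM) (fun ω => arcU (ω ())) = nrm arcM arcU := by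
    unfold nrm
    congr 1
    have hm := measurePreserving_eval (fun _ : Unit => arcM) ()
    have h2 : ∫ y, |arcU y| ^ (10 / 9 : ℝ) ∂arcM = ∫ ω : Unit → AddCircle (1 : ℝ),
        |arcU (ω ())| ^ (10 / 9 : ℝ) ∂(Measure.pi fun _ : Unit => arcM) := by
      conv_lhs => rw [← hm.map_eq]
      rw [integral_map hm.measurable.aemeasurable]
      exact ((hA.bm.rpow).1).aestronglyMeasurable
    exact h2.symm
  rw [e3] at h1
  have h3 : 0 < nrm arcM arcU := lt_of_le_of_ne (nrm_nonneg _) (Ne.symm Pool.Agent.H94.HS.g0.2.1)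
  by_contra hc
  push Not at hc
  have : 1 * nrm arcM arcU < c * nrm arcM arcU := mul_lt_mul_of_pos_right hc h3
  push_cast at h1
  linarith

theorem final (hpos : ∃ c : ℝ, 0 < c ∧ ∀ d : ℕ, 1 ≤ d → ∀ n : ℕ, ∀ f : (Fin n → Bool) → ℝ,
      (∀ S : Finset (Fin n), S.card < d →
        ∑ x : Fin n → Bool, f x * ∏ i ∈ S, (if x i then (-1 : ℝ) else 1) = 0) →
      (d : ℝ) * c * ((∑ x : Fin n → Bool, |f x| ^ (10 / 9 : ℝ)) / (2 : ℝ) ^ n) ^ (1 / (10 / 9 : ℝ)) ≤
        ((∑ x : Fin n → Bool,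
            |∑ i : Fin n, (f x - f (Function.update x i (!x i))) / 2| ^ (10 / 9 : ℝ)) /
              (2 : ℝ) ^ n) ^ (1 / (10 / 9 : ℝ))) : False := by
  obtain ⟨hrad, hI⟩ := Pool.Agent.H77.HS.modI
  obtain ⟨c, hc, h0⟩ := hI hpos
  have hA := Pool.Agent.H94.HS.g0.1
  have key : ∀ k : ℕ, Hyp arcM arcU ((20 / 17) ^ (k + 1) * c) := by
    intro k
    induction k with
    | zero =>
      have := hStmt_proved Bool radM radU hrad c hc h0
      simpa using this
    | succ k ih =>
      have := hStmt_proved (AddCircle (1 : ℝ)) arcM arcU hA ((20 / 17) ^ (k + 1) * c)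
        (by positivity) ih
      rw [pow_succ (20 / 17 : ℝ) (k + 1)]
      rw [show ((20 / 17 : ℝ) ^ (k + 1) * (20 / 17) * c) = 20 / 17 * ((20 / 17) ^ (k + 1) * c) by
        ring]
      exact this
  have h1 : Tendsto (fun k : ℕ => (20 / 17 : ℝ) ^ (k + 1) * c) atTop atTop := by
    have := (tendsto_pow_atTop_atTop_of_one_lt (by norm_num : (1 : ℝ) < 20 / 17)).comp
      (tendsto_add_atTop_nat 1)
    exact this.atTop_mul_const hc
  obtain ⟨k, hk⟩ := (h1.eventually (eventually_gt_atTop 1)).exists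
  exact absurd (hyp_le_one (key k)) (not_le.2 hk)

end Pool.Agent.H29.HS
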